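import Mathlib
import Pool.Agent.Helper271.CY.Defs
import Pool.Agent.Helper271.CY.Main

/-!
# A log Calabi-Yau pair with `n + ρ - 1` boundary components which is not of cluster type

Let `E` be the Fermat cubic and let `X ⊂ ℙ⁶` be the projective cone over `E × ℙ¹ ⊂ ℙ⁵` (embedded by
`𝒪(1, 1)`).  Let `B` be the sum of the section at infinity `E × ℙ¹` and of the cones over
`E × {0}` and `E × {∞}`.  Then `X` is a normal projective threefold with `Pic X = ℤ`, the pair
`(X, B)` is log canonical and `K_X + B ∼ 0`, and `B` has `3 = dim X + ρ(X) - 1` components.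
But `X` is birational to `E × ℙ² `, which is not rational, so `(X, B)` is not of cluster type.

With affine coordinates `a, b` on `E` (`a ^ 3 + b ^ 3 = 1`) the function field of `X` is
`K = ℂ(a, b, u, v)`, the linear system of hyperplane sections is
`V = ⟨1, u, a u, b u, v, a v, b v⟩`, and `K_X + B` is the divisor of the form
`(da / b²) ∧ (du / u) ∧ (dv / v)` plus `B`, i.e. zero.
-/

open ComplexityOne

namespace Pool.Agent.Results.MP_c22f44_ag.ConeOverProduct

theorem result : ∃ (K : Type) (_ : Field K) (_ : Algebra ℂ K) (V : Submodule ℂ K)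
    (B : Finset (PrimeDivisor V)),
    IsLogCalabiYauOfIndexOne 3 V B ∧ PicardGroupInfiniteCyclic V ∧ B.card = 3 + 1 - 1 ∧
      ¬ IsRational K 3 :=
  main_exists

end Pool.Agent.Results.MP_c22f44_ag.ConeOverProduct
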